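import Pool.Agent.H28.RC.Basic

/-!
# Ray class characters: representatives of `M / f M`
-/

set_option autoImplicit false

open NumberField
open scoped nonZeroDivisors

namespace Pool.Agent.H48.RC

open Pool.Agent.H28.RC Pool.Agent.H25.HK Pool.Agent.H25

theorem rep_of_relIndex {G : Type*} [AddCommGroup G] (A B : AddSubgroup G) {n : ℕ} (hn : n ≠ 0)
    (h : A.relIndex B = n) : ∃ X : Finset G,
    ((∀ r ∈ X, r ∈ B) ∧ ∀ x ∈ B, ∃! r, r ∈ X ∧ x - r ∈ A) ∧ X.card = n := by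
  classical
  have hc : Nat.card (B ⧸ A.addSubgroupOf B) = n := h
  haveI : Finite (B ⧸ A.addSubgroupOf B) := (Nat.finite_of_card_ne_zero (by rw [hc]; exact hn))
  haveI : Fintype (B ⧸ A.addSubgroupOf B) := Fintype.ofFinite _
  set g : (B ⧸ A.addSubgroupOf B) → G := fun q => ((Quotient.out q : B) : G) with hg
  have hkey : ∀ a b : B, ((a : B ⧸ A.addSubgroupOf B) = (b : B ⧸ A.addSubgroupOf B)) ↔
      (b : G) - (a : G) ∈ A := by
    intro a b
    rw [QuotientAddGroup.eq, AddSubgroup.mem_addSubgroupOf]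
    push_cast
    rw [neg_add_eq_sub]
  have hinj : Function.Injective g := by
    intro p q hpq
    have h1 : (Quotient.out p : B) = Quotient.out q := Subtype.ext hpq
    rw [← Quotient.out_eq p, ← Quotient.out_eq q, h1]
  refine ⟨Finset.univ.image g, ⟨?_, ?_⟩, ?_⟩
  · intro r hr
    obtain ⟨q, -, rfl⟩ := Finset.mem_image.1 hr
    exact (Quotient.out q : B).2
  · intro x hx
    refine ⟨g ((⟨x, hx⟩ : B) : B ⧸ A.addSubgroupOf B), ⟨Finset.mem_image_of_mem _
      (Finset.mem_univ _), ?_⟩, ?_⟩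
    · have h1 : ((Quotient.out ((⟨x, hx⟩ : B) : B ⧸ A.addSubgroupOf B) : B) :
          B ⧸ A.addSubgroupOf B) = ((⟨x, hx⟩ : B) : B ⧸ A.addSubgroupOf B) :=
        Quotient.out_eq _
      exact (hkey _ _).1 h1
    · rintro r ⟨hr, hxr⟩
      obtain ⟨q, -, rfl⟩ := Finset.mem_image.1 hr
      have h1 : ((Quotient.out q : B) : B ⧸ A.addSubgroupOf B) =
          ((⟨x, hx⟩ : B) : B ⧸ A.addSubgroupOf B) := (hkey _ _).2 hxr
      have h2 : ((Quotient.out q : B) : B ⧸ A.addSubgroupOf B) = q := Quotient.out_eq _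
      rw [← h1, h2]
  · rw [Finset.card_image_of_injective _ hinj, Finset.card_univ, ← Nat.card_eq_fintype_card, hc]

theorem pf_RX : T_RX := by
  intro K _ _ f M hf hM
  obtain ⟨d, J, hd, hMJ⟩ := FractionalIdeal.exists_eq_spanSingleton_mul M
  have hdK : (algebraMap (𝓞 K) K d) ≠ 0 := by
    rw [Ne, FaithfulSMul.algebraMap_eq_zero_iff]
    exact hd
  have hJ : J ≠ ⊥ := by
    rintro rfl
    apply hM
    rw [hMJ]
    simp
  set g : 𝓞 K →+ K := (AddMonoidHom.mulLeft (algebraMap (𝓞 K) K d)⁻¹).comp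
    (algebraMap (𝓞 K) K).toAddMonoidHom with hg
  have hgx : ∀ x, g x = (algebraMap (𝓞 K) K d)⁻¹ * algebraMap (𝓞 K) K x := fun x => rfl
  have hginj : Function.Injective g := by
    intro x y hxy
    rw [hgx, hgx] at hxy
    exact FaithfulSMul.algebraMap_injective (𝓞 K) K (mul_left_cancel₀ (inv_ne_zero hdK) hxy)
  have hmap : ∀ I : Ideal (𝓞 K), ∀ x : K,
      x ∈ FractionalIdeal.spanSingleton (𝓞 K)⁰ (algebraMap (𝓞 K) K d)⁻¹ * (I : FI K) ↔
      x ∈ (Submodule.toAddSubgroup I).map g := by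
    intro I x
    rw [FractionalIdeal.mem_singleton_mul, AddSubgroup.mem_map]
    constructor
    · rintro ⟨y, hy, rfl⟩
      obtain ⟨w, hw, rfl⟩ := (FractionalIdeal.mem_coeIdeal _).1 hy
      exact ⟨w, hw, rfl⟩
    · rintro ⟨w, hw, rfl⟩
      exact ⟨algebraMap (𝓞 K) K w, (FractionalIdeal.mem_coeIdeal _).2 ⟨w, hw, rfl⟩, rfl⟩
  have hfM : (f : FI K) * M =
      FractionalIdeal.spanSingleton (𝓞 K)⁰ (algebraMap (𝓞 K) K d)⁻¹ * ((f * J : Ideal (𝓞 K)) : FI K) := by
    rw [hMJ, FractionalIdeal.coeIdeal_mul]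
    ring
  have hN : Ideal.absNorm f ≠ 0 := by
    rw [Ne, Ideal.absNorm_eq_zero_iff]
    exact hf
  have hNJ : Ideal.absNorm J ≠ 0 := by
    rw [Ne, Ideal.absNorm_eq_zero_iff]
    exact hJ
  have hidx : ((Submodule.toAddSubgroup (f * J)).map g).relIndex
      ((Submodule.toAddSubgroup J).map g) = Ideal.absNorm f := by
    rw [AddSubgroup.relIndex_map_map_of_injective _ _ hginj]
    have h1 : Submodule.toAddSubgroup (f * J) ≤ Submodule.toAddSubgroup J :=
      (Ideal.mul_le_right : f * J ≤ J)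
    have h2 := AddSubgroup.relIndex_mul_index h1
    have h3 : (Submodule.toAddSubgroup (f * J)).index = Ideal.absNorm f * Ideal.absNorm J := by
      rw [← map_mul]
      rfl
    have h4 : (Submodule.toAddSubgroup J).index = Ideal.absNorm J := rfl
    rw [h3, h4] at h2
    exact Nat.eq_of_mul_eq_mul_right (Nat.pos_of_ne_zero hNJ) h2
  obtain ⟨X, ⟨hX1, hX2⟩, hX3⟩ := rep_of_relIndex _ _ hN hidx
  refine ⟨X, ⟨fun r hr => ?_, fun x hx => ?_⟩, hX3⟩
  · rw [hMJ, hmap]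
    exact hX1 r hr
  · rw [hMJ, hmap] at hx
    obtain ⟨r, ⟨h1, h2⟩, h3⟩ := hX2 x hx
    refine ⟨r, ⟨h1, ?_⟩, ?_⟩
    · rw [hfM, hmap]
      exact h2
    · rintro r' ⟨h4, h5⟩
      rw [hfM, hmap] at h5
      exact h3 r' ⟨h4, h5⟩

end Pool.Agent.H48.RC
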