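import Pool.Agent.H69.RC.CI

/-!
# Ray class characters: the absolute value of the Gauss sum (CN)
-/

set_option autoImplicit false

open NumberField Set Filter Complex
open scoped nonZeroDivisors

namespace Pool.Agent.H48.RC

open Pool.Agent.H28.RC Pool.Agent.H25.HK Pool.Agent.H25 Pool.Agent.H69.RC

section
variable {K : Type} [Field K] [NumberField K]

theorem ex_add' (x y : K) : ex (x + y) = ex x * ex y := by
  unfold ex
  rw [← Complex.exp_add, map_add]
  congr 1
  push_cast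
  ring

theorem conj_ex (x : K) : (starRingEnd ℂ) (ex x) = ex (-x) := by
  unfold ex
  rw [← Complex.exp_conj, map_neg]
  congr 1
  simp only [map_mul, Complex.conj_I, Complex.conj_ofReal, map_ratCast, map_ofNat]
  push_cast
  ring

theorem ex_eq_one_iff (x : K) : ex x = 1 ↔ ∃ n : ℤ, Algebra.trace ℚ K x = n := by
  unfold ex
  rw [Complex.exp_eq_one_iff]
  constructor
  · rintro ⟨n, hn⟩
    refine ⟨n, ?_⟩
    have h1 : (2 * Real.pi * I : ℂ) ≠ 0 := Complex.two_pi_I_ne_zero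
    rw [mul_comm (n : ℂ)] at hn
    have h2 := mul_left_cancel₀ h1 hn
    exact_mod_cast h2
  · rintro ⟨n, hn⟩
    refine ⟨n, ?_⟩
    rw [hn]
    push_cast
    ring

theorem mem_du_iff {L : FI K} (hL : L ≠ 0) (y : K) : y ∈ du K L ↔ ∀ a ∈ L, ex (a * y) = 1 := by
  have h0 : y ∈ du K L ↔ ∀ a ∈ L, Algebra.traceForm ℚ K y a ∈ (algebraMap ℤ ℚ).range :=
    FractionalIdeal.mem_dual (A := ℤ) (K := ℚ) hL
  rw [h0]
  refine forall₂_congr fun a _ => ?_
  rw [ex_eq_one_iff, Algebra.traceForm_apply, mul_comm y a]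
  constructor
  · rintro ⟨n, hn⟩
    exact ⟨n, by rw [← hn]; simp⟩
  · rintro ⟨n, hn⟩
    exact ⟨n, by rw [hn]; simp⟩

open scoped Classical in
theorem rep_shift {f : Ideal (𝓞 K)} {M : FI K} {X : Finset K} (hX : Rep K f M X) {t : K}
    (ht : t ∈ M) : Rep K f M (X.image (fun r => r + t)) := by
  constructor
  · intro r hr
    obtain ⟨r0, hr0, rfl⟩ := Finset.mem_image.1 hr
    exact fadd (hX.1 r0 hr0) ht
  · intro x hx
    obtain ⟨r, ⟨hr, hr2⟩, hu⟩ := hX.2 (x - t) (fsub hx ht)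
    refine ⟨r + t, ⟨Finset.mem_image.2 ⟨r, hr, rfl⟩, ?_⟩, ?_⟩
    · have h : x - (r + t) = x - t - r := by ring
      rwa [h]
    · rintro r' ⟨hr', hr2'⟩
      obtain ⟨r0, hr0, rfl⟩ := Finset.mem_image.1 hr'
      have h : x - (r0 + t) = x - t - r0 := by ring
      rw [h] at hr2'
      have h1 := hu r0 ⟨hr0, hr2'⟩
      rw [h1]

theorem ft_one (Y : Finset K) (z : K) : ft K Y (fun _ => 1) z = ∑ y ∈ Y, ex (y * z) := by
  rw [ft_eq]
  simp

/-- orthogonality -/
theorem ortho {f : Ideal (𝓞 K)} {L N M : FI K} (hL : L ≠ 0) (hN : N ≠ 0) (hNL : N = du K L)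
    (hLN : L = du K N) (hfN : (f : FI K) * N ≠ 0) (hMN : M = du K ((f : FI K) * N))
    {Y : Finset K} (hY : Rep K f N Y) {z : K} (hz : z ∈ M) [Decidable (z ∈ L)] :
    ∑ y ∈ Y, ex (y * z) = if z ∈ L then (Y.card : ℂ) else 0 := by
  classical
  split_ifs with h
  · rw [Finset.sum_congr rfl (g := fun _ => (1 : ℂ)) fun y hy => ?_]
    · simp
    · have h1 := hY.1 y hy
      rw [hNL, mem_du_iff hL] at h1
      have h2 := h1 z h
      rwa [mul_comm] at h2
  · rw [hLN, mem_du_iff hN] at h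
    push Not at h
    obtain ⟨t, ht, hne⟩ := h
    have hzz : z ∈ du K ((f : FI K) * N) := by rwa [← hMN]
    have h1 := ft_rep hfN hY (rep_shift hY ht) (fun _ => 1) (fun _ _ _ _ => rfl) hzz
    rw [ft_one, ft_one, Finset.sum_image (fun a _ b _ hab => add_right_cancel hab)] at h1
    have h2 : ∑ y ∈ Y, ex ((y + t) * z) = (∑ y ∈ Y, ex (y * z)) * ex (t * z) := by
      rw [Finset.sum_mul]
      refine Finset.sum_congr rfl fun y _ => ?_
      rw [add_mul, ex_add']
    rw [h2] at h1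
    have h3 : (∑ y ∈ Y, ex (y * z)) * (ex (t * z) - 1) = 0 := by
      rw [mul_sub, ← h1]
      ring
    rcases mul_eq_zero.1 h3 with h4 | h4
    · exact h4
    · exact absurd (sub_eq_zero.1 h4) hne

theorem cf_bar (hCM : T_CM) (χ : RCC K) {M : FI K} (hM : M ≠ 0) (x : K) :
    cf χ.bar M x = (starRingEnd ℂ) (cf χ M x) := (hCM K χ M hM).2.2.2.2.2.2.1 x

theorem cf_neg (hCM : T_CM) (χ : RCC K) {M : FI K} (hM : M ≠ 0) {x : K} (hx : x ∈ M) :
    cf χ M (-x) = (-1) ^ χ.S.card * cf χ M x := by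
  have h := (hCM K χ M hM).1 (-1) (neg_ne_zero.2 one_ne_zero) x hx
  have h1 : ((-1 : 𝓞 K) : K) = -1 := by simp
  have h2 : Ideal.span {(-1 : 𝓞 K)} = ⊤ := by
    rw [Ideal.span_singleton_neg, Ideal.span_singleton_one]
  rw [h1, neg_one_mul, sg_neg_one, h2, χ.map_one, mul_one] at h
  exact h

theorem fneg {M : FI K} {x : K} (hx : x ∈ M) : -x ∈ M :=
  (M : Submodule (𝓞 K) K).neg_mem hx

end

theorem pf_CN : T_ID → T_CM → T_CP → T_RX → T_DU → T_CW → T_CN := by
  intro hID hCM hCP hRX hDU hCW K _ _ χ W hW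
  classical
  obtain ⟨W', hW'⟩ := hCW K χ.bar
  have hf0 : (χ.f : FI K) ≠ 0 := f_ne χ
  have hone : (1 : FI K) ≠ 0 := one_ne_zero
  have hidl1 : idl K (1 : FI K) 1 = ⊤ := by
    refine (hID K 1 hone).2.1 ⊤ 1 ?_
    rw [FractionalIdeal.coeIdeal_top, one_mul, FractionalIdeal.spanSingleton_one]
  have h1mem : (1 : K) ∈ (1 : FI K) := FractionalIdeal.one_mem_one _
  have hcf1 : cf χ 1 1 ≠ 0 := by
    have h := (hCM K χ 1 hone).2.2.2.1 1 h1mem one_ne_zero (by
      rw [hidl1]
      exact top_sup_eq _)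
    intro h0
    rw [h0, norm_zero] at h
    exact zero_ne_one h
  -- the double dual
  have hdd : ∀ M : FI K, M ≠ 0 → du' χ (du' χ M) = M := by
    intro M hM
    have hd1 : du K 1 ≠ 0 := (hDU K 1 hone).1
    rw [du_eq hDU χ (du_ne hDU χ hM), du_eq hDU χ hM]
    have hfM := fM_ne χ hM
    rw [mul_inv, mul_inv, inv_inv]
    calc (χ.f : FI K)⁻¹ * ((χ.f : FI K) * M * (du K 1)⁻¹) * du K 1
        = ((χ.f : FI K)⁻¹ * (χ.f : FI K)) * M * ((du K 1)⁻¹ * du K 1) := by ring
      _ = M := by rw [inv_mul_cancel₀ hf0, inv_mul_cancel₀ hd1, one_mul, mul_one]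
  -- first relation
  have hA : W * W' = (-1) ^ χ.S.card * (Ideal.absNorm χ.f : ℂ) := by
    set N : FI K := du' χ 1 with hNdef
    have hN : N ≠ 0 := du_ne hDU χ hone
    obtain ⟨X, hX, -⟩ := hRX K χ.f 1 χ.f_ne hone
    obtain ⟨Y, hY, hYc⟩ := hRX K χ.f N χ.f_ne hN
    have hfM := fM_ne χ hone
    have hfN := fM_ne χ hN
    have hMN : (1 : FI K) = du K ((χ.f : FI K) * N) := (hdd 1 hone).symm
    have hLN : (χ.f : FI K) * 1 = du K N := by
      rw [hNdef]
      unfold du'
      rw [(hDU K _ hfM).2.1]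
    have key : ∑ y ∈ Y, ft K X (cf χ 1) y * ex (y * 1) =
        (Ideal.absNorm χ.f : ℂ) * cf χ 1 (-1) := by
      have e1 : ∑ y ∈ Y, ft K X (cf χ 1) y * ex (y * 1) =
          ∑ r ∈ X, cf χ 1 r * ∑ y ∈ Y, ex (y * (r + 1)) := by
        simp only [ft_eq, Finset.sum_mul]
        rw [Finset.sum_comm]
        refine Finset.sum_congr rfl fun r _ => ?_
        rw [Finset.mul_sum]
        refine Finset.sum_congr rfl fun y _ => ?_
        rw [mul_add, ex_add', mul_comm y r]
        ring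
      rw [e1]
      have e2 : ∀ r ∈ X, cf χ 1 r * ∑ y ∈ Y, ex (y * (r + 1)) =
          if r + 1 ∈ (χ.f : FI K) * 1 then (Ideal.absNorm χ.f : ℂ) * cf χ 1 (-1) else 0 := by
        intro r hr
        rw [ortho (M := 1) hfM hN rfl hLN hfN hMN hY (fadd (hX.1 r hr) h1mem), hYc]
        split_ifs with h
        · have h3 := hCP K χ 1 hone (-1) (fneg h1mem) _ h
          have h4 : -1 + (r + 1) = r := by ring
          rw [h4] at h3
          rw [h3, mul_comm]
        · rw [mul_zero]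
      rw [Finset.sum_congr rfl e2, ← Finset.sum_filter, Finset.sum_const]
      obtain ⟨r0, ⟨h5, h6⟩, h7⟩ := hX.2 (-1) (fneg h1mem)
      have h8 : X.filter (fun r => r + 1 ∈ (χ.f : FI K) * 1) = {r0} := by
        ext r
        rw [Finset.mem_filter, Finset.mem_singleton]
        constructor
        · rintro ⟨h9, h10⟩
          refine h7 r ⟨h9, ?_⟩
          have h11 : -1 - r = -(r + 1) := by ring
          rw [h11]
          exact fneg h10
        · rintro rfl
          refine ⟨h5, ?_⟩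
          have h11 : r + 1 = -(-1 - r) := by ring
          rw [h11]
          exact fneg h6
      rw [h8, Finset.card_singleton, one_smul]
    have e3 : ∑ y ∈ Y, ft K X (cf χ 1) y * ex (y * 1) = W * (W' * cf χ 1 1) := by
      have e4 : ∀ y ∈ Y, ft K X (cf χ 1) y * ex (y * 1) =
          W * (cf χ.bar N y * ex (y * 1)) := by
        intro y hy
        rw [hW 1 X hone hX y (hY.1 y hy)]
        ring
      rw [Finset.sum_congr rfl e4, ← Finset.mul_sum, ← ft_eq]
      have h1 : (1 : K) ∈ du' χ.bar N := by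
        have : du' χ.bar N = 1 := hdd 1 hone
        rw [this]
        exact h1mem
      rw [hW' N Y hN hY 1 h1]
      have h2 : du' χ.bar N = 1 := hdd 1 hone
      rw [h2, cf_bar hCM χ.bar hone, cf_bar hCM χ hone, Complex.conj_conj]
    rw [e3, cf_neg hCM χ hone h1mem] at key
    have h5 : (W * W' - (-1) ^ χ.S.card * (Ideal.absNorm χ.f : ℂ)) * cf χ 1 1 = 0 := by
      linear_combination key
    rcases mul_eq_zero.1 h5 with h6 | h6
    · exact sub_eq_zero.1 h6
    · exact absurd h6 hcf1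
  -- second relation
  have hB : W' * (-1) ^ χ.S.card = (starRingEnd ℂ) W := by
    set M : FI K := du' χ 1 with hMdef
    have hM : M ≠ 0 := du_ne hDU χ hone
    have hdM : du' χ M = 1 := hdd 1 hone
    have hdM' : du' χ.bar M = 1 := hdd 1 hone
    obtain ⟨X, hX, -⟩ := hRX K χ.f M χ.f_ne hM
    have e1 : (starRingEnd ℂ) (ft K X (cf χ M) 1) = ft K X (cf χ.bar M) (-1) := by
      rw [ft_eq, ft_eq, map_sum]
      refine Finset.sum_congr rfl fun r _ => ?_
      rw [map_mul, conj_ex, cf_bar hCM χ hM]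
      congr 2
      ring
    have e2 : ft K X (cf χ M) 1 = W * cf χ.bar 1 1 := by
      have := hW M X hM hX 1 (by rw [hdM]; exact h1mem)
      rwa [hdM] at this
    have e3 : ft K X (cf χ.bar M) (-1) = W' * cf χ.bar.bar 1 (-1) := by
      have := hW' M X hM hX (-1) (by rw [hdM']; exact fneg h1mem)
      rwa [hdM'] at this
    rw [e2, e3, map_mul, cf_bar hCM χ.bar hone, cf_bar hCM χ hone, cf_bar hCM χ hone,
      Complex.conj_conj, Complex.conj_conj, cf_neg hCM χ hone h1mem] at e1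
    have h5 : (W' * (-1) ^ χ.S.card - (starRingEnd ℂ) W) * cf χ 1 1 = 0 := by
      linear_combination -e1
    rcases mul_eq_zero.1 h5 with h6 | h6
    · exact sub_eq_zero.1 h6
    · exact absurd h6 hcf1
  have hC : ((‖W‖ ^ 2 : ℝ) : ℂ) = ((Ideal.absNorm χ.f : ℝ) : ℂ) := by
    have h1 : W * (starRingEnd ℂ) W = ((‖W‖ ^ 2 : ℝ) : ℂ) := by
      rw [Complex.mul_conj, Complex.normSq_eq_norm_sq]
    rw [← h1, ← hB]
    have h2 : ((-1 : ℂ) ^ χ.S.card) * (-1) ^ χ.S.card = 1 := by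
      rw [← mul_pow]
      simp
    calc W * (W' * (-1) ^ χ.S.card) = (W * W') * (-1) ^ χ.S.card := by ring
      _ = ((-1 : ℂ) ^ χ.S.card * (-1) ^ χ.S.card) * (Ideal.absNorm χ.f : ℂ) := by
          rw [hA]
          ring
      _ = _ := by
          rw [h2, one_mul]
          push_cast
          rfl
  exact_mod_cast hC

end Pool.Agent.H48.RC
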